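import Mathlib

/-!
# Number of zeros of a quadratic form over a finite field of odd characteristic
-/

set_option autoImplicit false
set_option linter.unusedSectionVars false

open Finset Matrix

namespace Pool.Agent.Helper93.Tq

section diag
variable {k : Type} [Field k]

/-- diagonalization of a symmetric matrix -/
lemma exists_diag {n : ℕ} (h2 : (2 : k) ≠ 0) (A : Matrix (Fin n) (Fin n) k) (hA : A.IsSymm) :
    ∃ (P : Matrix (Fin n) (Fin n) k) (w : Fin n → k), IsUnit P.det ∧ Pᵀ * A * P = diagonal w := by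
  classical
  let _ : Invertible (2 : k) := invertibleOfNonzero h2
  let B : LinearMap.BilinForm k (Fin n → k) := Matrix.toBilin' A
  have hB : LinearMap.IsSymm B := by
    refine ⟨fun x y => ?_⟩
    simp only [B, RingHom.id_apply, Matrix.toBilin'_apply']
    rw [dotProduct_mulVec, ← mulVec_transpose, hA.eq, dotProduct_comm]
  obtain ⟨v, hv⟩ := LinearMap.BilinForm.exists_orthogonal_basis hB
  have hn : Module.finrank k (Fin n → k) = n := by simp
  let v' : Module.Basis (Fin n) k (Fin n → k) := v.reindex (finCongr hn)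
  let P : Matrix (Fin n) (Fin n) k := (Pi.basisFun k (Fin n)).toMatrix v'
  have hP : IsUnit P.det := by
    have := (Pi.basisFun k (Fin n)).invertibleToMatrix v'
    exact Matrix.isUnit_det_of_invertible P
  have hPe : ∀ i j, P i j = v' j i := fun i j => by
    simp [P, Module.Basis.toMatrix_apply]
  refine ⟨P, fun i => B (v' i) (v' i), hP, ?_⟩
  have key : ∀ i j, (Pᵀ * A * P) i j = B (v' i) (v' j) := by
    intro i j
    simp only [B, Matrix.toBilin'_apply, Matrix.mul_apply, Matrix.transpose_apply, hPe,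
      Finset.sum_mul]
    rw [Finset.sum_comm]
  ext i j
  rw [key]
  by_cases h : i = j
  · subst h
    rw [diagonal_apply_eq]
  · rw [diagonal_apply_ne _ h]
    have h3 := hv (i := (finCongr hn).symm i) (j := (finCongr hn).symm j) (fun h4 => h ((finCongr hn).symm.injective h4))
    simpa [v', LinearMap.IsOrthoᵢ] using h3

end diag

section cnt
variable {k : Type} [Field k] [Fintype k] [DecidableEq k]

/-- the number of zeros of the quadratic form with the matrix `A` -/
noncomputable def Z {n : ℕ} (A : Matrix (Fin n) (Fin n) k) : ℕ :=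
  Nat.card {x : Fin n → k // x ⬝ᵥ A *ᵥ x = 0}

lemma Z_congr {n : ℕ} (A P : Matrix (Fin n) (Fin n) k) (hP : IsUnit P.det) :
    Z (Pᵀ * A * P) = Z A := by
  unfold Z
  have hu : IsUnit P := (Matrix.isUnit_iff_isUnit_det P).2 hP
  have e0 : ∀ x : Fin n → k, x ⬝ᵥ (Pᵀ * A * P) *ᵥ x = (P *ᵥ x) ⬝ᵥ A *ᵥ (P *ᵥ x) := by
    intro x
    rw [← Matrix.mulVec_mulVec, ← Matrix.mulVec_mulVec, dotProduct_mulVec x, vecMul_transpose]
  refine Nat.card_congr (Equiv.subtypeEquiv
    { toFun := fun x => P *ᵥ x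
      invFun := fun x => P⁻¹ *ᵥ x
      left_inv := fun x => by
        simp only [Matrix.mulVec_mulVec]
        rw [Matrix.nonsing_inv_mul P hP, Matrix.one_mulVec]
      right_inv := fun x => by
        simp only [Matrix.mulVec_mulVec]
        rw [Matrix.mul_nonsing_inv P hP, Matrix.one_mulVec] } fun x => ?_)
  rw [e0]
  exact Iff.rfl

/-- the quadratic character with complex values -/
noncomputable def et (k : Type) [Field k] [Fintype k] [DecidableEq k] : MulChar k ℂ :=
  (quadraticChar k).ringHomComp (Int.castRingHom ℂ)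

lemma et_apply (a : k) : et k a = ((quadraticChar k a : ℤ) : ℂ) := rfl

lemma et_quad : (et k).IsQuadratic := (quadraticChar_isQuadratic k).comp _

lemma et_ne (hk : ringChar k ≠ 2) : et k ≠ 1 := by
  intro h
  obtain ⟨a, ha⟩ := quadraticChar_exists_neg_one' hk
  have h1 := congrArg (fun χ : MulChar k ℂ => χ a) h
  simp only [et_apply, ha, MulChar.one_apply_coe] at h1
  norm_num at h1

/-- `∑ ψ (a y²)` -/
noncomputable def G (ψ : AddChar k ℂ) (a : k) : ℂ := ∑ y : k, ψ (a * y ^ 2)

lemma sum_sq (hk : ringChar k ≠ 2) (f : k → ℂ) :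
    ∑ y : k, f (y ^ 2) = ∑ z : k, (1 + et k z) * f z := by
  classical
  rw [← Finset.sum_fiberwise_of_maps_to (s := univ) (t := univ) (g := fun y : k => y ^ 2)
    (fun _ _ => Finset.mem_univ _)]
  refine Finset.sum_congr rfl fun z _ => ?_
  rw [Finset.sum_congr rfl (g := fun _ => f z) (fun y hy => by rw [(Finset.mem_filter.1 hy).2]),
    Finset.sum_const, nsmul_eq_mul]
  congr 1
  have h := quadraticChar_card_sqrts hk z
  rw [et_apply, add_comm]
  rw [← Int.cast_one, ← Int.cast_add, ← h]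
  push_cast
  congr 2
  ext y
  simp

lemma G_zero (ψ : AddChar k ℂ) : G ψ 0 = Fintype.card k := by
  simp [G]

lemma G_ne (hk : ringChar k ≠ 2) {ψ : AddChar k ℂ} (hψ : ψ ≠ 1) {a : k} (ha : a ≠ 0) :
    G ψ a = et k a * gaussSum (et k) ψ := by
  unfold G
  rw [sum_sq hk (fun z => ψ (a * z))]
  simp only [add_mul, one_mul, Finset.sum_add_distrib]
  have h1 : ∑ z : k, ψ (a * z) = 0 := by
    have h2 := AddChar.sum_mulShift a (AddChar.IsPrimitive.of_ne_one hψ)
    rw [if_neg ha, Nat.cast_zero] at h2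
    rw [← h2]
    exact Finset.sum_congr rfl fun z _ => by rw [mul_comm]
  rw [h1, zero_add]
  have h3 := gaussSum_mulShift (et k) ψ (Units.mk0 a ha)
  have h4 : et k a * et k a = 1 := by
    rw [et_apply, ← Int.cast_mul, ← pow_two, quadraticChar_sq_one ha, Int.cast_one]
  rw [← h3, Units.val_mk0, ← mul_assoc, h4, one_mul]
  unfold gaussSum
  refine Finset.sum_congr rfl fun z _ => ?_
  rw [AddChar.mulShift_apply]

lemma exists_psi : ∃ ψ : AddChar k ℂ, ψ ≠ 1 := by
  obtain ⟨ψ, hψ⟩ := (AddChar.exists_apply_ne_zero (a := (1 : k))).2 one_ne_zero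
  refine ⟨ψ, ?_⟩
  rintro rfl
  simp at hψ

lemma psi_sum {ι : Type} (s : Finset ι) (ψ : AddChar k ℂ) (f : ι → k) :
    ψ (∑ i ∈ s, f i) = ∏ i ∈ s, ψ (f i) := by
  classical
  induction s using Finset.induction_on with
  | empty => simp
  | insert a s ha ih => rw [Finset.sum_insert ha, Finset.prod_insert ha, AddChar.map_add_eq_mul, ih]

lemma Z_sum {n : ℕ} {ψ : AddChar k ℂ} (hψ : ψ ≠ 1) (w : Fin n → k) :
    (Fintype.card k : ℂ) * Z (diagonal w) = ∑ t : k, ∏ i, G ψ (t * w i) := by
  classical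
  have e0 : ∀ x : Fin n → k, x ⬝ᵥ diagonal w *ᵥ x = ∑ i, w i * x i ^ 2 := by
    intro x
    unfold dotProduct
    refine Finset.sum_congr rfl fun i _ => ?_
    rw [Matrix.mulVec_diagonal]
    ring
  have h1 : ∀ t : k, ∏ i, G ψ (t * w i) = ∑ x : Fin n → k, ψ (t * ∑ i, w i * x i ^ 2) := by
    intro t
    unfold G
    rw [Finset.prod_univ_sum, Fintype.piFinset_univ]
    refine Finset.sum_congr rfl fun x _ => ?_
    rw [Finset.mul_sum, psi_sum]
    exact Finset.prod_congr rfl fun i _ => by rw [mul_assoc]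
  simp_rw [h1]
  rw [Finset.sum_comm]
  have h2 : ∀ x : Fin n → k, ∑ t : k, ψ (t * ∑ i, w i * x i ^ 2) =
      if x ⬝ᵥ diagonal w *ᵥ x = 0 then (Fintype.card k : ℂ) else 0 := by
    intro x
    rw [e0, AddChar.sum_mulShift _ (AddChar.IsPrimitive.of_ne_one hψ)]
    split_ifs <;> simp
  simp_rw [h2]
  rw [← Finset.sum_filter, Finset.sum_const, nsmul_eq_mul, mul_comm]
  congr 1
  unfold Z
  rw [Nat.card_eq_fintype_card, Fintype.card_subtype]

/-- nondegenerate diagonal forms in an even number of variables -/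
lemma Z_diag_ne (hk : ringChar k ≠ 2) {m : ℕ} (w : Fin (2 * m) → k) (hw : ∀ i, w i ≠ 0) :
    (Fintype.card k : ℤ) * Z (diagonal w) = (Fintype.card k : ℤ) ^ (2 * m) +
      (Fintype.card k - 1) * (Fintype.card k : ℤ) ^ m * quadraticChar k ((-1) ^ m * ∏ i, w i) := by
  classical
  obtain ⟨ψ, hψ⟩ := exists_psi (k := k)
  have h0 := Z_sum hψ w
  rw [← Finset.add_sum_erase _ _ (Finset.mem_univ (0 : k))] at h0
  have h1 : ∀ t ∈ (univ : Finset k).erase 0, ∏ i, G ψ (t * w i) =
      (et k (-1) * Fintype.card k) ^ m * et k (∏ i, w i) := by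
    intro t ht
    have ht0 : t ≠ 0 := (Finset.mem_erase.1 ht).1
    rw [Finset.prod_congr rfl (fun i _ => G_ne hk hψ (mul_ne_zero ht0 (hw i)))]
    rw [Finset.prod_mul_distrib, Finset.prod_const, Finset.card_univ, Fintype.card_fin,
      pow_mul (gaussSum (et k) ψ),
      gaussSum_sq (et_ne hk) et_quad (AddChar.IsPrimitive.of_ne_one hψ), ← map_prod,
      Finset.prod_mul_distrib, Finset.prod_const, Finset.card_univ, Fintype.card_fin, map_mul,
      pow_mul, map_pow]
    have h4 : et k (t ^ 2) = 1 := by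
      rw [et_apply, quadraticChar_sq_one' ht0, Int.cast_one]
    rw [h4, one_pow, one_mul, mul_comm]
  rw [Finset.sum_congr rfl h1, Finset.sum_const, Finset.card_erase_of_mem (Finset.mem_univ _),
    Finset.card_univ, nsmul_eq_mul] at h0
  have h5 : ∏ i, G ψ (0 * w i) = (Fintype.card k : ℂ) ^ (2 * m) := by
    simp [G_zero]
  rw [h5, Nat.cast_sub Fintype.card_pos, Nat.cast_one] at h0
  have h6 : ((Fintype.card k : ℤ) * Z (diagonal w) : ℂ) = ((Fintype.card k : ℤ) : ℂ) ^ (2 * m) +
      (((Fintype.card k : ℤ) : ℂ) - 1) * ((Fintype.card k : ℤ) : ℂ) ^ m *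
        ((quadraticChar k ((-1) ^ m * ∏ i, w i) : ℤ) : ℂ) := by
    push_cast
    rw [h0, mul_pow, ← et_apply, map_mul, map_pow]
    ring
  exact_mod_cast h6

/-- diagonal forms with one zero, in an even number of variables -/
lemma Z_diag_one (hk : ringChar k ≠ 2) {m : ℕ} (w : Fin (2 * m) → k) (i₀ : Fin (2 * m))
    (h0 : w i₀ = 0) (hw : ∀ i, i ≠ i₀ → w i ≠ 0) :
    (Fintype.card k : ℤ) * Z (diagonal w) = (Fintype.card k : ℤ) ^ (2 * m) := by
  classical
  obtain ⟨ψ, hψ⟩ := exists_psi (k := k)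
  have h1 := Z_sum hψ w
  rw [← Finset.add_sum_erase _ _ (Finset.mem_univ (0 : k))] at h1
  have hm : 0 < m := by
    rcases Nat.eq_zero_or_pos m with h | h
    · subst h
      exact absurd i₀.2 (by norm_num)
    · exact h
  have h2 : ∀ t ∈ (univ : Finset k).erase 0, ∏ i, G ψ (t * w i) =
      et k t * (Fintype.card k * gaussSum (et k) ψ ^ (2 * m - 1) *
        ∏ i ∈ (univ : Finset (Fin (2 * m))).erase i₀, et k (w i)) := by
    intro t ht
    have ht0 : t ≠ 0 := (Finset.mem_erase.1 ht).1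
    rw [← Finset.mul_prod_erase _ _ (Finset.mem_univ i₀), h0, mul_zero, G_zero,
      Finset.prod_congr rfl (fun i hi => G_ne hk hψ (mul_ne_zero ht0 (hw i (Finset.mem_erase.1 hi).1)))]
    simp only [map_mul]
    rw [Finset.prod_mul_distrib, Finset.prod_const, Finset.card_erase_of_mem (Finset.mem_univ _),
      Finset.card_univ, Fintype.card_fin, Finset.prod_mul_distrib, Finset.prod_const,
      Finset.card_erase_of_mem (Finset.mem_univ _), Finset.card_univ, Fintype.card_fin]
    have h4 : et k t ^ (2 * m - 1) = et k t := by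
      have h5 : et k t * et k t = 1 := by
        rw [et_apply, ← Int.cast_mul, ← pow_two, quadraticChar_sq_one ht0, Int.cast_one]
      obtain ⟨j, rfl⟩ : ∃ j, m = j + 1 := ⟨m - 1, by omega⟩
      rw [show 2 * (j + 1) - 1 = 2 * j + 1 by omega, pow_succ, pow_mul, pow_two, h5, one_pow, one_mul]
    rw [h4]
    ring
  rw [Finset.sum_congr rfl h2, ← Finset.sum_mul] at h1
  have h3 : ∑ t ∈ (univ : Finset k).erase 0, et k t = 0 := by
    have h4 := Finset.add_sum_erase (univ : Finset k) (fun t => et k t) (Finset.mem_univ 0)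
    simp only [MulChar.map_zero, zero_add] at h4
    rw [h4]
    exact MulChar.sum_eq_zero_of_ne_one (et_ne hk)
  have h5 : ∏ i, G ψ (0 * w i) = (Fintype.card k : ℂ) ^ (2 * m) := by
    simp [G_zero]
  rw [h3, zero_mul, add_zero, h5] at h1
  exact_mod_cast h1

end cnt

end Pool.Agent.Helper93.Tq
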