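import Mathlib
import Pool.Agent.Helper93.Tq.Gs

/-!
# Number of points of the intersection of two quadrics in `P⁵` over a finite field
-/

set_option autoImplicit false
set_option linter.unusedSectionVars false

open Finset Matrix

namespace Pool.Agent.Helper93.Tq

section
variable {k : Type} [Field k] [Fintype k] [DecidableEq k]

lemma two_ne (hk : ringChar k ≠ 2) : (2 : k) ≠ 0 := Ring.two_ne_zero hk

/-- if two entries of the diagonal vanish, the determinant has a double zero -/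
lemma sq_dvd {n : ℕ} (A C P : Matrix (Fin n) (Fin n) k) (w : Fin n → k) (hP : IsUnit P.det)
    (hd : Pᵀ * A * P = diagonal w) (i j : Fin n) (hij : i ≠ j) (hi : w i = 0) (hj : w j = 0) :
    (Polynomial.X : Polynomial k) ^ 2 ∣
      (A.map Polynomial.C + (Polynomial.X : Polynomial k) • C.map Polynomial.C).det := by
  classical
  set M : Matrix (Fin n) (Fin n) (Polynomial k) :=
    A.map Polynomial.C + (Polynomial.X : Polynomial k) • C.map Polynomial.C with hM
  set Q : Matrix (Fin n) (Fin n) (Polynomial k) := P.map Polynomial.C with hQ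
  have h1 : Qᵀ * M * Q = (diagonal w).map Polynomial.C +
      (Polynomial.X : Polynomial k) • (Pᵀ * C * P).map Polynomial.C := by
    rw [hM, Matrix.mul_add, Matrix.add_mul, ← hd, Matrix.mul_smul, Matrix.smul_mul]
    simp only [Matrix.map_mul, hQ, Matrix.transpose_map]
  have h2 : (Qᵀ * M * Q).det = Polynomial.C (P.det ^ 2) * M.det := by
    have h3 : Q.det = Polynomial.C P.det := by
      rw [hQ, ← RingHom.mapMatrix_apply, ← RingHom.map_det]
    rw [Matrix.det_mul, Matrix.det_mul, Matrix.det_transpose, h3, map_pow]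
    ring
  have h3 : (Polynomial.X : Polynomial k) ^ 2 ∣ (Qᵀ * M * Q).det := by
    rw [h1]
    set N : Matrix (Fin n) (Fin n) (Polynomial k) := (diagonal w).map Polynomial.C +
      (Polynomial.X : Polynomial k) • (Pᵀ * C * P).map Polynomial.C with hN
    let D : Fin n → Polynomial k := fun l => if l = i ∨ l = j then Polynomial.X else 1
    let N' : Matrix (Fin n) (Fin n) (Polynomial k) := fun l m =>
      if l = i ∨ l = j then Polynomial.C ((Pᵀ * C * P) l m) else N l m
    have h4 : N = diagonal D * N' := by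
      ext1 l m
      rw [Matrix.diagonal_mul]
      by_cases hl : l = i ∨ l = j
      · simp only [D, N', if_pos hl, hN, Matrix.add_apply, Matrix.map_apply, Matrix.smul_apply,
          smul_eq_mul]
        have h5 : (diagonal w) l m = 0 := by
          by_cases hlm : l = m
          · subst hlm
            rw [diagonal_apply_eq]
            rcases hl with h | h <;> rw [h] <;> assumption
          · rw [diagonal_apply_ne _ hlm]
        rw [h5, map_zero, zero_add]
      · simp only [D, N', if_neg hl, one_mul]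
    rw [h4, Matrix.det_mul, Matrix.det_diagonal]
    refine Dvd.dvd.mul_right ?_ _
    have h5 : ∏ l, D l = Polynomial.X ^ 2 := by
      simp only [D]
      rw [Finset.prod_ite, Finset.prod_const_one, mul_one, Finset.prod_const]
      congr 1
      have h6 : (univ.filter fun l : Fin n => l = i ∨ l = j) = {i, j} := by
        ext l
        simp
      rw [h6, Finset.card_pair hij]
    rw [h5]
  rw [h2] at h3
  have hu : IsUnit (Polynomial.C (P.det ^ 2) : Polynomial k) :=
    Polynomial.isUnit_C.2 (hP.pow 2)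
  exact (hu.dvd_mul_left).1 h3

/-- the number of zeros of a symmetric matrix of even size, of corank at most `1` -/
lemma Z_gen (hk : ringChar k ≠ 2) {m : ℕ} (A : Matrix (Fin (2 * m)) (Fin (2 * m)) k) (hA : A.IsSymm)
    (hs : A.det = 0 → ∃ C : Matrix (Fin (2 * m)) (Fin (2 * m)) k, ¬ (Polynomial.X : Polynomial k) ^ 2 ∣
      (A.map Polynomial.C + (Polynomial.X : Polynomial k) • C.map Polynomial.C).det) :
    (Fintype.card k : ℤ) * Z A = (Fintype.card k : ℤ) ^ (2 * m) +
      (Fintype.card k - 1) * (Fintype.card k : ℤ) ^ m * quadraticChar k ((-1) ^ m * A.det) := by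
  classical
  obtain ⟨P, w, hP, hd⟩ := exists_diag (two_ne hk) A hA
  have hdet : P.det ^ 2 * A.det = ∏ i, w i := by
    rw [← Matrix.det_diagonal, ← hd, Matrix.det_mul, Matrix.det_mul, Matrix.det_transpose]
    ring
  rw [← Z_congr A P hP, hd]
  by_cases h0 : A.det = 0
  · rw [h0, mul_zero, MulChar.map_zero, mul_zero, add_zero]
    rw [h0, mul_zero] at hdet
    obtain ⟨i₀, -, hi₀⟩ := Finset.prod_eq_zero_iff.1 hdet.symm
    obtain ⟨C, hC⟩ := hs h0
    refine Z_diag_one hk w i₀ hi₀ fun i hi h => ?_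
    exact hC (sq_dvd A C P w hP hd i i₀ hi h hi₀)
  · have hw : ∀ i, w i ≠ 0 := by
      intro i hi
      have h1 : ∏ i, w i = 0 := Finset.prod_eq_zero (Finset.mem_univ i) hi
      rw [h1] at hdet
      exact (mul_ne_zero (pow_ne_zero 2 hP.ne_zero) h0) hdet
    rw [Z_diag_ne hk w hw, ← hdet]
    have h2 : (-1 : k) ^ m * (P.det ^ 2 * A.det) = P.det ^ 2 * ((-1) ^ m * A.det) := by ring
    rw [h2, map_mul, quadraticChar_sq_one' hP.ne_zero, one_mul]

/-- the number of common zeros -/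
noncomputable def N2 {n : ℕ} (A₀ A₁ : Matrix (Fin n) (Fin n) k) : ℕ :=
  Nat.card {x : Fin n → k // x ⬝ᵥ A₀ *ᵥ x = 0 ∧ x ⬝ᵥ A₁ *ᵥ x = 0}

lemma sum_Z {n : ℕ} (A₀ A₁ : Matrix (Fin n) (Fin n) k) :
    (∑ v : k × k, (Z (v.1 • A₀ + v.2 • A₁) : ℤ)) =
      (Fintype.card k : ℤ) ^ 2 * N2 A₀ A₁ +
        Fintype.card k * ((Fintype.card k : ℤ) ^ n - N2 A₀ A₁) := by
  classical
  have h1 : ∀ v : k × k, (Z (v.1 • A₀ + v.2 • A₁) : ℤ) = ∑ x : Fin n → k,
      if v.1 * (x ⬝ᵥ A₀ *ᵥ x) + v.2 * (x ⬝ᵥ A₁ *ᵥ x) = 0 then (1 : ℤ) else 0 := by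
    intro v
    unfold Z
    rw [Nat.card_eq_fintype_card, Fintype.card_subtype, Finset.card_filter]
    push_cast
    refine Finset.sum_congr rfl fun x _ => ?_
    have h2 : x ⬝ᵥ (v.1 • A₀ + v.2 • A₁) *ᵥ x = v.1 * (x ⬝ᵥ A₀ *ᵥ x) + v.2 * (x ⬝ᵥ A₁ *ᵥ x) := by
      rw [Matrix.add_mulVec, Matrix.smul_mulVec, Matrix.smul_mulVec, dotProduct_add,
        dotProduct_smul, dotProduct_smul, smul_eq_mul, smul_eq_mul]
    rw [h2]
  simp_rw [h1]
  rw [Finset.sum_comm]
  have h3 : ∀ a b : k, (∑ v : k × k, if v.1 * a + v.2 * b = 0 then (1 : ℤ) else 0) =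
      if a = 0 ∧ b = 0 then (Fintype.card k : ℤ) ^ 2 else Fintype.card k := by
    intro a b
    rw [Fintype.sum_prod_type]
    by_cases hb : b = 0
    · by_cases ha : a = 0
      · simp [ha, hb, pow_two]
      · rw [if_neg (fun h => ha h.1)]
        have h4 : ∀ s t : k, s * a + t * b = 0 ↔ s = 0 := by
          intro s t
          rw [hb, mul_zero, add_zero, mul_eq_zero, or_iff_left ha]
        simp [h4]
    · rw [if_neg (fun h => hb h.2)]
      have h4 : ∀ s t : k, s * a + t * b = 0 ↔ t = -(s * a) / b := by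
        intro s t
        rw [eq_div_iff hb]
        constructor
        · intro h
          linear_combination h
        · intro h
          linear_combination h
      simp [h4]
  simp_rw [h3]
  have h5 : (N2 A₀ A₁ : ℤ) = ∑ x : Fin n → k,
      if (x ⬝ᵥ A₀ *ᵥ x = 0 ∧ x ⬝ᵥ A₁ *ᵥ x = 0) then (1 : ℤ) else 0 := by
    unfold N2
    rw [Nat.card_eq_fintype_card, Fintype.card_subtype, Finset.card_filter]
    push_cast
    rfl
  have h6 : ∑ x : Fin n → k, (if (x ⬝ᵥ A₀ *ᵥ x = 0 ∧ x ⬝ᵥ A₁ *ᵥ x = 0) then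
      (Fintype.card k : ℤ) ^ 2 else Fintype.card k) =
      ∑ x : Fin n → k, ((Fintype.card k : ℤ) + ((Fintype.card k : ℤ) ^ 2 - Fintype.card k) *
        (if (x ⬝ᵥ A₀ *ᵥ x = 0 ∧ x ⬝ᵥ A₁ *ᵥ x = 0) then (1 : ℤ) else 0)) := by
    refine Finset.sum_congr rfl fun x _ => ?_
    split_ifs <;> ring
  rw [h6, Finset.sum_add_distrib, ← Finset.mul_sum, ← h5, Finset.sum_const, Finset.card_univ,
    Fintype.card_fun, Fintype.card_fin, nsmul_eq_mul]
  push_cast
  ring

/-- the number of common zeros for a smooth intersection of two quadrics in an odd-dimensional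
projective space -/
lemma N2_eq (hk : ringChar k ≠ 2) {m : ℕ} (hm : 2 ≤ m) (A₀ A₁ : Matrix (Fin (2 * m)) (Fin (2 * m)) k)
    (h0 : A₀.IsSymm) (h1 : A₁.IsSymm)
    (hs : ∀ s t : k, (s, t) ≠ 0 → (s • A₀ + t • A₁).det = 0 → ∃ C : Matrix (Fin (2 * m)) (Fin (2 * m)) k,
      ¬ (Polynomial.X : Polynomial k) ^ 2 ∣
      ((s • A₀ + t • A₁).map Polynomial.C + (Polynomial.X : Polynomial k) • C.map Polynomial.C).det) :
    (N2 A₀ A₁ : ℤ) = (Fintype.card k : ℤ) ^ (2 * m - 2) + (Fintype.card k : ℤ) ^ (m - 2) *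
      ∑ v : k × k, quadraticChar k ((-1) ^ m * (v.1 • A₀ + v.2 • A₁).det) := by
  classical
  set q : ℤ := (Fintype.card k : ℤ) with hq
  have hq1 : 1 < q := by
    rw [hq]
    exact_mod_cast Fintype.one_lt_card
  have h2 := sum_Z A₀ A₁
  rw [← Finset.add_sum_erase _ _ (Finset.mem_univ ((0, 0) : k × k))] at h2
  have hZ0 : (Z ((0 : k) • A₀ + (0 : k) • A₁) : ℤ) = q ^ (2 * m) := by
    unfold Z
    rw [Nat.card_eq_fintype_card, Fintype.card_subtype]
    simp [hq]
  have hS : ∑ v : k × k, quadraticChar k ((-1) ^ m * (v.1 • A₀ + v.2 • A₁).det) =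
      ∑ v ∈ (univ : Finset (k × k)).erase (0, 0),
        quadraticChar k ((-1) ^ m * (v.1 • A₀ + v.2 • A₁).det) := by
    rw [← Finset.add_sum_erase _ _ (Finset.mem_univ ((0, 0) : k × k))]
    have h00 : ((0 : k) • A₀ + (0 : k) • A₁).det = 0 := by
      haveI : Nonempty (Fin (2 * m)) := ⟨⟨0, by omega⟩⟩
      rw [zero_smul, zero_smul, add_zero, Matrix.det_zero]
    simp only []
    rw [h00, mul_zero, MulChar.map_zero, zero_add]
  have h3 : q * ∑ v ∈ (univ : Finset (k × k)).erase (0, 0), (Z (v.1 • A₀ + v.2 • A₁) : ℤ) =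
      (q ^ 2 - 1) * q ^ (2 * m) + (q - 1) * q ^ m *
        ∑ v : k × k, quadraticChar k ((-1) ^ m * (v.1 • A₀ + v.2 • A₁).det) := by
    rw [hS, Finset.mul_sum, Finset.mul_sum]
    have h4 : ∀ v ∈ (univ : Finset (k × k)).erase (0, 0), q * (Z (v.1 • A₀ + v.2 • A₁) : ℤ) =
        q ^ (2 * m) + (q - 1) * q ^ m *
          quadraticChar k ((-1) ^ m * (v.1 • A₀ + v.2 • A₁).det) := by
      rintro ⟨s, t⟩ hv
      exact Z_gen hk _ ((h0.smul s).add (h1.smul t)) (hs s t (Finset.mem_erase.1 hv).1)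
    rw [Finset.sum_congr rfl h4, Finset.sum_add_distrib, Finset.sum_const,
      Finset.card_erase_of_mem (Finset.mem_univ _), Finset.card_univ, Fintype.card_prod, nsmul_eq_mul,
      Nat.cast_sub (Nat.mul_pos Fintype.card_pos Fintype.card_pos)]
    push_cast
    rw [← hq]
    ring
  simp only [] at h2
  rw [hZ0, ← hq] at h2
  obtain ⟨j, rfl⟩ : ∃ j, m = j + 2 := ⟨m - 2, by omega⟩
  rw [show 2 * (j + 2) - 2 = 2 * j + 2 by omega, show j + 2 - 2 = j by omega]
  set S := ∑ v : k × k, quadraticChar k ((-1) ^ (j + 2) * (v.1 • A₀ + v.2 • A₁).det) with hSd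
  set W := ∑ v ∈ (univ : Finset (k × k)).erase (0, 0), (Z (v.1 • A₀ + v.2 • A₁) : ℤ) with hWd
  set N : ℤ := (N2 A₀ A₁ : ℤ) with hN
  have h5 : (q ^ 2 * (q - 1)) * (N - (q ^ (2 * j + 2) + q ^ j * S)) = 0 := by
    have h6 : q * (q ^ (2 * (j + 2)) + W) = q * (q ^ 2 * N + q * (q ^ (2 * (j + 2)) - N)) := by
      rw [h2]
    have e1 : q ^ (2 * (j + 2)) = q ^ (2 * j + 2) * q ^ 2 := by ring
    have e2 : q ^ (j + 2) = q ^ j * q ^ 2 := by ring
    rw [e1] at h6 h3
    rw [e2] at h3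
    linear_combination -h6 + h3
  rcases mul_eq_zero.1 h5 with h6 | h6
  · exfalso
    rcases mul_eq_zero.1 h6 with h7 | h7
    · have := pow_eq_zero_iff (two_ne_zero) |>.1 h7
      omega
    · omega
  · linarith

end

end Pool.Agent.Helper93.Tq
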