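import Mathlib
import Pool.Agent.Helper93.Tq.Two

/-!
# The binary sextic whose curve of genus 2 has a Jacobian isogenous to the product of two
# quadratic twists of `y² = x (x² + A x + B)`
-/

set_option autoImplicit false
set_option linter.unusedSectionVars false

open Finset Matrix

namespace Pool.Agent.Helper93.Tq

/-- the sextic: `y² = sx A B d d' x 1` is a curve of genus `2` with the Jacobian isogenous to
`E_d × E_{d'}`, `E : y² = x (x² + A x + B)` -/
def sx {R : Type} [CommRing R] (A B d d' s t : R) : R :=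
  -(A * d) * (d * d' * s ^ 2 + t ^ 2) *
    (B * (d * d' * s ^ 2 + t ^ 2) ^ 2 - A ^ 2 * (d * d') * s ^ 2 * t ^ 2)

lemma sx_map {R S : Type} [CommRing R] [CommRing S] (φ : R →+* S) (A B d d' s t : R) :
    φ (sx A B d d' s t) = sx (φ A) (φ B) (φ d) (φ d') (φ s) (φ t) := by
  simp only [sx, map_mul, map_neg, map_add, map_sub, map_pow]

/-- an identity of forms over an infinite domain is preserved by homomorphisms -/
lemma transfer {R S : Type} [CommRing R] [IsDomain R] [Infinite R] [CommRing S] (φ : R →+* S)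
    {n : ℕ} (A₀ A₁ : Matrix (Fin n) (Fin n) R) (κ a b c d : R)
    (h : ∀ s t : R, (s • A₀ + t • A₁).det = -(κ ^ 2 * sx a b c d s t)) (s t : S) :
    (s • A₀.map φ + t • A₁.map φ).det = -(φ κ ^ 2 * sx (φ a) (φ b) (φ c) (φ d) s t) := by
  have h1 : Matrix.det ((MvPolynomial.X 0 : MvPolynomial (Fin 2) R) •
      (A₀.map MvPolynomial.C : Matrix (Fin n) (Fin n) (MvPolynomial (Fin 2) R)) +
      (MvPolynomial.X 1 : MvPolynomial (Fin 2) R) • A₁.map MvPolynomial.C) =
      -(MvPolynomial.C κ ^ 2 * sx (MvPolynomial.C a) (MvPolynomial.C b) (MvPolynomial.C c)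
        (MvPolynomial.C d) (MvPolynomial.X 0) (MvPolynomial.X 1)) := by
    apply MvPolynomial.funext
    intro x
    rw [RingHom.map_det, map_neg, map_mul, map_pow, sx_map]
    simp only [MvPolynomial.eval_C, MvPolynomial.eval_X]
    rw [← h (x 0) (x 1)]
    congr 1
    ext i j
    simp
  have h2 := congrArg (MvPolynomial.eval₂Hom φ ![s, t]) h1
  rw [RingHom.map_det, map_neg, map_mul, map_pow, sx_map] at h2
  simp only [MvPolynomial.eval₂Hom_C, MvPolynomial.eval₂Hom_X'] at h2
  simp only [Matrix.cons_val_zero, Matrix.cons_val_one] at h2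
  rw [← h2]
  congr 1
  ext i j
  simp

section
variable {k : Type} [Field k]

/-- the zeros of the sextic are simple -/
lemma sx_simple (h2 : (2 : k) ≠ 0) {A B d d' κ : k} (hA : A ≠ 0) (hB : B ≠ 0)
    (hAB : A ^ 2 - 4 * B ≠ 0) (hd : d ≠ 0) (hd' : d' ≠ 0) (hκ : κ ≠ 0) {s t : k} (hst : (s, t) ≠ 0)
    (h0 : sx A B d d' s t = 0) :
    ¬ (Polynomial.X : Polynomial k) ^ 2 ∣ -(Polynomial.C κ ^ 2 *
      sx (Polynomial.C A) (Polynomial.C B) (Polynomial.C d) (Polynomial.C d') (Polynomial.C s)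
        (Polynomial.C t + Polynomial.X)) := by
  rintro ⟨Q, hQ⟩
  have h3 := congrArg (fun p => Polynomial.eval 0 (Polynomial.derivative p)) hQ
  simp only [sx] at h3
  simp only [Polynomial.derivative_mul, Polynomial.derivative_neg, Polynomial.derivative_add,
    Polynomial.derivative_sub, Polynomial.derivative_pow, Polynomial.derivative_C,
    Polynomial.derivative_X, Polynomial.eval_add, Polynomial.eval_mul, Polynomial.eval_neg,
    Polynomial.eval_sub, Polynomial.eval_pow, Polynomial.eval_C, Polynomial.eval_X] at h3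
  norm_num at h3
  have he : d * d' ≠ 0 := mul_ne_zero hd hd'
  have hAd : A * d ≠ 0 := mul_ne_zero hA hd
  have ht : t ≠ 0 := by
    rintro rfl
    have h4 : (A * d) * (d * d') ^ 3 * B * s ^ 6 = 0 := by
      rw [sx] at h0
      linear_combination -h0
    have h5 : s = 0 := by
      by_contra hs
      exact (mul_ne_zero (mul_ne_zero (mul_ne_zero hAd (pow_ne_zero 3 he)) hB) (pow_ne_zero 6 hs)) h4
    exact hst (by rw [h5]; rfl)
  have hs : s ≠ 0 := by
    rintro rfl
    have h4 : (A * d) * B * t ^ 6 = 0 := by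
      rw [sx] at h0
      linear_combination -h0
    exact (mul_ne_zero (mul_ne_zero hAd hB) (pow_ne_zero 6 ht)) h4
  rcases h3 with h3 | h3
  · exact hκ h3
  set e := d * d' with hee
  set U := e * s ^ 2 + t ^ 2 with hU
  have h4 : (A * d * 2 * t) * ((B * U ^ 2 - A ^ 2 * e * s ^ 2 * t ^ 2) +
      U * (2 * B * U - A ^ 2 * e * s ^ 2)) = 0 := by
    linear_combination -h3
  have h5 : (B * U ^ 2 - A ^ 2 * e * s ^ 2 * t ^ 2) + U * (2 * B * U - A ^ 2 * e * s ^ 2) = 0 := by
    rcases mul_eq_zero.1 h4 with h | h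
    · exact absurd h (mul_ne_zero (mul_ne_zero hAd h2) ht)
    · exact h
  have h6 : U * (B * U ^ 2 - A ^ 2 * e * s ^ 2 * t ^ 2) = 0 := by
    have h7 : (A * d) * (U * (B * U ^ 2 - A ^ 2 * e * s ^ 2 * t ^ 2)) = 0 := by
      rw [sx, ← hee, ← hU] at h0
      linear_combination -h0
    rcases mul_eq_zero.1 h7 with h | h
    · exact absurd h hAd
    · exact h
  rcases mul_eq_zero.1 h6 with h | h
  · rw [h] at h5
    have h7 : A ^ 2 * e * s ^ 2 * t ^ 2 = 0 := by linear_combination -h5
    exact (mul_ne_zero (mul_ne_zero (mul_ne_zero (pow_ne_zero 2 hA) he) (pow_ne_zero 2 hs))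
      (pow_ne_zero 2 ht)) h7
  · have hU0 : U ≠ 0 := by
      intro h7
      rw [h7] at h
      have h8 : A ^ 2 * e * s ^ 2 * t ^ 2 = 0 := by linear_combination -h
      exact (mul_ne_zero (mul_ne_zero (mul_ne_zero (pow_ne_zero 2 hA) he) (pow_ne_zero 2 hs))
        (pow_ne_zero 2 ht)) h8
    rw [h, zero_add] at h5
    have h7 : 2 * B * U - A ^ 2 * e * s ^ 2 = 0 := by
      rcases mul_eq_zero.1 h5 with h8 | h8
      · exact absurd h8 hU0
      · exact h8
    have h8 : (B * U) * (U - 2 * t ^ 2) = 0 := by linear_combination h - t ^ 2 * h7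
    have h9 : U - 2 * t ^ 2 = 0 := by
      rcases mul_eq_zero.1 h8 with h10 | h10
      · exact absurd h10 (mul_ne_zero hB hU0)
      · exact h10
    have h10 : e * s ^ 2 = t ^ 2 := by
      rw [hU] at h9
      linear_combination h9
    have h11 : t ^ 2 * (A ^ 2 - 4 * B) = 0 := by
      have h12 : U = 2 * t ^ 2 := by linear_combination h9
      rw [h12] at h7
      linear_combination -h7 - A ^ 2 * h10
    exact (mul_ne_zero (pow_ne_zero 2 ht) hAB) h11

end

section
variable {k : Type} [Field k] [Fintype k] [DecidableEq k]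

lemma qc_sq {a : k} (ha : a ≠ 0) (b : k) : quadraticChar k (a ^ 2 * b) = quadraticChar k b := by
  rw [map_mul, quadraticChar_sq_one' ha, one_mul]

/-- the sum of a homogeneous function over the plane -/
lemma sum_hom (f : k → k → k) (hf : ∀ a s t : k, f (a * s) (a * t) = (a ^ 3) ^ 2 * f s t) :
    ∑ v : k × k, quadraticChar k (f v.1 v.2) =
      ((Fintype.card k : ℤ) - 1) * (∑ x : k, quadraticChar k (f x 1) + quadraticChar k (f 1 0)) := by
  classical
  rw [Fintype.sum_prod_type_right, ← Finset.add_sum_erase _ _ (Finset.mem_univ (0 : k))]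
  have h1 : ∑ x : k, quadraticChar k (f x 0) =
      ((Fintype.card k : ℤ) - 1) * quadraticChar k (f 1 0) := by
    rw [← Finset.add_sum_erase _ _ (Finset.mem_univ (0 : k))]
    have h2 : f 0 0 = 0 := by
      have := hf 0 0 0
      simpa using this
    rw [h2, MulChar.map_zero, zero_add]
    have h3 : ∀ x ∈ (univ : Finset k).erase 0, quadraticChar k (f x 0) = quadraticChar k (f 1 0) := by
      intro x hx
      have h4 := hf x 1 0
      rw [mul_one, mul_zero] at h4
      rw [h4, qc_sq (pow_ne_zero 3 (Finset.mem_erase.1 hx).1)]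
    rw [Finset.sum_congr rfl h3, Finset.sum_const, Finset.card_erase_of_mem (Finset.mem_univ _),
      Finset.card_univ, nsmul_eq_mul, Nat.cast_sub Fintype.card_pos, Nat.cast_one]
  have h5 : ∀ y ∈ (univ : Finset k).erase 0, ∑ x : k, quadraticChar k (f x y) =
      ∑ x : k, quadraticChar k (f x 1) := by
    intro y hy
    have hy0 := (Finset.mem_erase.1 hy).1
    refine (Fintype.sum_equiv (Equiv.mulLeft₀ y hy0) _ _ fun x => ?_).symm
    have e : (Equiv.mulLeft₀ y hy0) x = y * x := rfl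
    rw [e]
    have h6 := hf y x 1
    rw [mul_one] at h6
    rw [h6, qc_sq (pow_ne_zero 3 hy0)]
  simp only []
  rw [h1, Finset.sum_congr rfl h5, Finset.sum_const, Finset.card_erase_of_mem (Finset.mem_univ _),
      Finset.card_univ, nsmul_eq_mul, Nat.cast_sub Fintype.card_pos, Nat.cast_one]
  ring

lemma sum_sq' (hk : ringChar k ≠ 2) (f : k → ℤ) :
    ∑ y : k, f (y ^ 2) = ∑ z : k, (1 + quadraticChar k z) * f z := by
  classical
  rw [← Finset.sum_fiberwise_of_maps_to (s := univ) (t := univ) (g := fun y : k => y ^ 2)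
    (fun _ _ => Finset.mem_univ _)]
  refine Finset.sum_congr rfl fun z _ => ?_
  rw [Finset.sum_congr rfl (g := fun _ => f z) (fun y hy => by rw [(Finset.mem_filter.1 hy).2]),
    Finset.sum_const, nsmul_eq_mul]
  congr 1
  rw [add_comm, ← quadraticChar_card_sqrts hk z]
  congr 2
  ext y
  simp

lemma sum_sx (hk : ringChar k ≠ 2) {A B d d' : k} (hA : A ≠ 0) (hB : B ≠ 0)
    (hd : d ≠ 0) (hd' : d' ≠ 0) :
    ∑ v : k × k, quadraticChar k (sx A B d d' v.1 v.2) = ((Fintype.card k : ℤ) - 1) *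
      (∑ x : k, quadraticChar k (d * (x * (x ^ 2 + A * x + B))) +
        ∑ x : k, quadraticChar k (d' * (x * (x ^ 2 + A * x + B)))) := by
  classical
  rw [sum_hom (fun s t => sx A B d d' s t) (fun a s t => by simp only [sx]; ring)]
  congr 1
  obtain ⟨e, he⟩ : ∃ e, e = d * d' := ⟨_, rfl⟩
  have he0 : e ≠ 0 := by rw [he]; exact mul_ne_zero hd hd'
  obtain ⟨p, hp⟩ : ∃ p, A * p = -B := ⟨-B / A, by field_simp⟩
  have hp0 : p ≠ 0 := by
    rintro rfl
    rw [mul_zero] at hp
    exact hB (neg_eq_zero.1 hp.symm)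
  have hpB : p ^ 2 + A * p + B = p ^ 2 := by rw [hp]; ring
  -- the first substitution
  obtain ⟨g, hg⟩ : ∃ g : k → ℤ, g = fun v : k => quadraticChar k (d * ((p * (1 + e * v)) *
    ((p * (1 + e * v)) ^ 2 + A * (p * (1 + e * v)) + B))) := ⟨_, rfl⟩
  have s1 : ∀ x : k, quadraticChar k (sx A B d d' x 1) = g (x ^ 2) := by
    intro x
    rw [hg]
    have h1 : B ^ 2 * sx A B d d' x 1 = A ^ 4 * (d * ((p * (1 + e * x ^ 2)) *
        ((p * (1 + e * x ^ 2)) ^ 2 + A * (p * (1 + e * x ^ 2)) + B))) := by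
      have hB' : B = -(A * p) := by rw [hp, neg_neg]
      rw [sx, ← he, hB']
      ring
    rw [← qc_sq hB (sx A B d d' x 1), h1, show A ^ 4 = (A ^ 2) ^ 2 by ring,
      qc_sq (pow_ne_zero 2 hA)]
  rw [Finset.sum_congr rfl (fun x _ => s1 x), sum_sq' hk g]
  -- affine substitution
  have s2 : ∑ z : k, (1 + quadraticChar k z) * g z =
      ∑ z : k, (1 + quadraticChar k (p * e * z)) *
        quadraticChar k (d * ((p + z) * ((p + z) ^ 2 + A * (p + z) + B))) := by
    refine Fintype.sum_equiv (Equiv.mulLeft₀ (p * e) (mul_ne_zero hp0 he0)) _ _ fun z => ?_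
    have e1 : (Equiv.mulLeft₀ (p * e) (mul_ne_zero hp0 he0)) z = (p * e) * z := rfl
    rw [e1, hg]
    have e2 : p * e * (p * e * z) = (p * e) ^ 2 * z := by ring
    have e3 : p + p * e * z = p * (1 + e * z) := by ring
    rw [e2, e3, qc_sq (mul_ne_zero hp0 he0)]
  rw [s2]
  have s5 : ∑ z : k, (1 + quadraticChar k (p * e * z)) *
        quadraticChar k (d * ((p + z) * ((p + z) ^ 2 + A * (p + z) + B))) =
      ∑ z : k, quadraticChar k (d * ((p + z) * ((p + z) ^ 2 + A * (p + z) + B))) +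
      ∑ z : k, quadraticChar k (p * e * z) *
        quadraticChar k (d * ((p + z) * ((p + z) ^ 2 + A * (p + z) + B))) := by
    rw [← Finset.sum_add_distrib]
    exact Finset.sum_congr rfl fun z _ => by ring
  rw [s5]
  have s3 : ∑ z : k, quadraticChar k (d * ((p + z) * ((p + z) ^ 2 + A * (p + z) + B))) =
      ∑ x : k, quadraticChar k (d * (x * (x ^ 2 + A * x + B))) :=
    Fintype.sum_equiv (Equiv.addLeft p) _ _ fun z => rfl
  rw [s3, add_assoc]
  congr 1
  -- the Moebius substitution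
  have s4 : ∑ x : k, quadraticChar k (d' * (x * (x ^ 2 + A * x + B))) =
      ∑ z : k, quadraticChar k (d' * ((p + z) * ((p + z) ^ 2 + A * (p + z) + B))) :=
    (Fintype.sum_equiv (Equiv.addLeft p) _ _ fun z => rfl).symm
  rw [s4, ← Finset.add_sum_erase _ _ (Finset.mem_univ (0 : k)),
    ← Finset.add_sum_erase univ (fun z => quadraticChar k (d' * ((p + z) * ((p + z) ^ 2 +
      A * (p + z) + B)))) (Finset.mem_univ (0 : k))]
  simp only [mul_zero, MulChar.map_zero, zero_mul, zero_add, add_zero]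
  rw [add_comm]
  congr 1
  · rw [hpB]
    have e4 : A ^ 2 * (d' * (p * p ^ 2)) = p ^ 2 * (-(A * B) * d') := by
      have hB' : B = -(A * p) := by rw [hp, neg_neg]
      rw [hB']
      ring
    have e5 : sx A B d d' 1 0 = (e * d) ^ 2 * (-(A * B) * d') := by
      rw [sx, he]
      ring
    rw [e5, qc_sq (mul_ne_zero he0 hd), ← qc_sq hA (d' * (p * p ^ 2)), e4, qc_sq hp0]
  · refine Finset.sum_nbij' (fun z => p ^ 2 / z) (fun z => p ^ 2 / z) ?_ ?_ ?_ ?_ ?_
    · intro z hz
      exact Finset.mem_erase.2 ⟨div_ne_zero (pow_ne_zero 2 hp0) (Finset.mem_erase.1 hz).1,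
        Finset.mem_univ _⟩
    · intro z hz
      exact Finset.mem_erase.2 ⟨div_ne_zero (pow_ne_zero 2 hp0) (Finset.mem_erase.1 hz).1,
        Finset.mem_univ _⟩
    · intro z hz
      have hz0 : z ≠ 0 := (Finset.mem_erase.1 hz).1
      field_simp
    · intro z hz
      have hz0 : z ≠ 0 := (Finset.mem_erase.1 hz).1
      field_simp
    · intro z hz
      have hz0 : z ≠ 0 := (Finset.mem_erase.1 hz).1
      have hB' : B = -(A * p) := by rw [hp, neg_neg]
      have e6 : (z ^ 2) ^ 2 * (d' * ((p + p ^ 2 / z) * ((p + p ^ 2 / z) ^ 2 +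
          A * (p + p ^ 2 / z) + B))) = p ^ 2 * (p * d' * z * ((p + z) * ((p + z) ^ 2 +
          A * (p + z) + B))) := by
        rw [hB']
        field_simp
        ring
      have e7 : p * e * z * (d * ((p + z) * ((p + z) ^ 2 + A * (p + z) + B))) =
          d ^ 2 * (p * d' * z * ((p + z) * ((p + z) ^ 2 + A * (p + z) + B))) := by
        rw [he]
        ring
      rw [← map_mul, e7, qc_sq hd, ← qc_sq (pow_ne_zero 2 hz0)
        (d' * ((p + p ^ 2 / z) * ((p + p ^ 2 / z) ^ 2 + A * (p + p ^ 2 / z) + B))), e6, qc_sq hp0]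

end

end Pool.Agent.Helper93.Tq
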