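import Mathlib
import Pool.Agent.Helper93.Tq.Sex
import Pool.Agent.Helper93.Bq.GL

/-!
# The number of points of smooth intersections of two quadrics in `P⁵` over all extensions of a
# residue field, and the Euler product
-/

set_option autoImplicit false
set_option linter.unusedSectionVars false

open Finset Matrix NumberField IsDedekindDomain

namespace Pool.Agent.Helper93.Tq

open Pool.Agent.H341R2.Sharp
open Pool.Agent.H82R3.EK (luc luc_eq card_points)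
open W165.CE (wei aeval_wei wei_natDegree wei_monic T_luc A_two hasse)
open Pool.Agent.Helper93.Bq (cnt ap ef HasL Good card_eq ringChar_ne ap_bound finite_mem)
open Pool.Agent.H921R2.TatePole (nm two_le_nm)

/-- extensions of a finite field -/
lemma cnt_ext {k k' : Type} [Field k] [Fintype k] [DecidableEq k] [Field k'] [Fintype k']
    (hk : ringChar k ≠ 2) (f : k →+* k') {n : ℕ} (hcard : Fintype.card k' = Fintype.card k ^ n)
    (a b : k) (hD : 4 * a ^ 3 + 27 * b ^ 2 ≠ 0) :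
    (Fintype.card k' : ℤ) - cnt k' (f a) (f b) =
      luc ((Fintype.card k : ℤ) - cnt k a b) (Fintype.card k) n := by
  classical
  let _ : Algebra k k' := f.toAlgebra
  have hfr : Module.finrank k k' = n := by
    have h1 := Module.card_eq_pow_finrank (K := k) (V := k')
    rw [hcard] at h1
    exact (Nat.pow_right_injective Fintype.one_lt_card h1).symm
  have hk' : ringChar k' ≠ 2 := by
    rwa [← Algebra.ringChar_eq k k']
  obtain ⟨m, rfl⟩ : ∃ m, n = m + 1 := by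
    have h1 : 0 < n := by
      rw [← hfr]
      exact Module.finrank_pos
    exact ⟨n - 1, by omega⟩
  have t1 := T_eq_sum (E := k) hk (wei a b)
  rw [Module.finrank_self] at t1
  have t2 := T_eq_sum (E := k') hk (wei a b)
  rw [hfr] at t2
  have l2 := T_luc hk (wei_natDegree a b) (wei_monic a b) m
  rw [A_two hk a b hD] at l2
  unfold cnt
  rw [card_points hk' (fun x => x ^ 3 + f a * x + f b), card_points hk (fun x => x ^ 3 + a * x + b)]
  have e1 : ∑ x : k, quadraticChar k (x ^ 3 + a * x + b) = T (wei a b) 1 := by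
    rw [t1]
    refine Finset.sum_congr rfl fun x _ => ?_
    rw [aeval_wei, Algebra.algebraMap_self, RingHom.id_apply, RingHom.id_apply]
  have e2 : ∑ x : k', quadraticChar k' (x ^ 3 + f a * x + f b) = T (wei a b) (m + 1) := by
    rw [t2]
    refine Finset.sum_congr rfl fun x _ => ?_
    rw [aeval_wei]
    rfl
  rw [e1, e2, l2]
  have e3 : (Fintype.card k : ℤ) - (Fintype.card k + T (wei a b) 1) = -T (wei a b) 1 := by ring
  rw [e3]
  ring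

/-- the two eigenvalues -/
lemma roots (a : ℤ) (q : ℕ) (h : |(a : ℝ)| ≤ 2 * Real.sqrt q) :
    ∃ α β : ℂ, α + β = a ∧ α * β = q ∧ ‖α‖ ^ 2 = q ∧ ‖β‖ ^ 2 = q := by
  have h1 : (0 : ℝ) ≤ 4 * q - (a : ℝ) ^ 2 := by
    have h2 : |(a : ℝ)| ^ 2 ≤ (2 * Real.sqrt q) ^ 2 := pow_le_pow_left₀ (abs_nonneg _) h 2
    rw [sq_abs, mul_pow, Real.sq_sqrt (Nat.cast_nonneg q)] at h2
    linarith
  set y : ℝ := Real.sqrt (4 * q - (a : ℝ) ^ 2) with hy
  have hy2 : y ^ 2 = 4 * q - (a : ℝ) ^ 2 := Real.sq_sqrt h1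
  have hyc : (y : ℂ) ^ 2 = 4 * q - (a : ℂ) ^ 2 := by
    rw [← Complex.ofReal_pow, hy2]
    push_cast
    ring
  have key : ∀ z : ℂ, z = ⟨(a : ℝ) / 2, y / 2⟩ ∨ z = ⟨(a : ℝ) / 2, -(y / 2)⟩ → ‖z‖ ^ 2 = q := by
    rintro z (rfl | rfl)
    · rw [← Complex.normSq_eq_norm_sq, Complex.normSq_mk]
      linear_combination hy2 / 4
    · rw [← Complex.normSq_eq_norm_sq, Complex.normSq_mk]
      linear_combination hy2 / 4
  refine ⟨⟨(a : ℝ) / 2, y / 2⟩, ⟨(a : ℝ) / 2, -(y / 2)⟩, ?_, ?_, key _ (Or.inl rfl),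
    key _ (Or.inr rfl)⟩
  · apply Complex.ext
    · simp
    · simp
  · apply Complex.ext
    · simp only [Complex.mul_re, Complex.natCast_re]
      linear_combination hy2 / 4
    · simp only [Complex.mul_im, Complex.natCast_im]
      ring

section pts
variable {R : Type} [CommRing R]

/-- the nonzero common zeros over the field `k` of two quadratic forms with coefficients in `R` -/
def pts {k : Type} [Field k] (A₀ A₁ : Matrix (Fin 6) (Fin 6) R) (φ : R →+* k) : Set (Fin 6 → k) :=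
  {x | x ≠ 0 ∧ x ⬝ᵥ A₀.map φ *ᵥ x = 0 ∧ x ⬝ᵥ A₁.map φ *ᵥ x = 0}

/-- the count over a finite field -/
lemma pts_count [IsDomain R] [Infinite R] {k : Type} [Field k] [Fintype k] [DecidableEq k]
    (hk : ringChar k ≠ 2) (φ : R →+* k) (A₀ A₁ : Matrix (Fin 6) (Fin 6) R) (h0 : A₀.IsSymm)
    (h1 : A₁.IsSymm) {κ A B d d' : R}
    (h : ∀ s t : R, (s • A₀ + t • A₁).det = -(κ ^ 2 * sx A B d d' s t))
    (hκ : φ κ ≠ 0) (hA : φ A ≠ 0) (hB : φ B ≠ 0) (hAB : φ (A ^ 2 - 4 * B) ≠ 0) (hd : φ d ≠ 0)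
    (hd' : φ d' ≠ 0) :
    ((pts A₀ A₁ φ).ncard : ℤ) = (Fintype.card k - 1) * (1 + (Fintype.card k : ℤ) +
      (Fintype.card k : ℤ) ^ 2 + (Fintype.card k : ℤ) ^ 3 + Fintype.card k *
        (∑ x : k, quadraticChar k (φ d * (x * (x ^ 2 + φ A * x + φ B))) +
          ∑ x : k, quadraticChar k (φ d' * (x * (x ^ 2 + φ A * x + φ B))))) := by
  classical
  have h2 : (2 : k) ≠ 0 := two_ne hk
  have hAB' : φ A ^ 2 - 4 * φ B ≠ 0 := by
    rwa [map_sub, map_pow, map_mul, map_ofNat] at hAB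
  have hdet : ∀ s t : k, (s • A₀.map φ + t • A₁.map φ).det =
      -(φ κ ^ 2 * sx (φ A) (φ B) (φ d) (φ d') s t) := fun s t => transfer φ A₀ A₁ κ A B d d' h s t
  have hpol : ∀ s t : Polynomial k, (s • A₀.map ((Polynomial.C).comp φ) +
      t • A₁.map ((Polynomial.C).comp φ)).det = -(Polynomial.C (φ κ) ^ 2 *
        sx (Polynomial.C (φ A)) (Polynomial.C (φ B)) (Polynomial.C (φ d)) (Polynomial.C (φ d')) s t) :=
    fun s t => transfer ((Polynomial.C).comp φ) A₀ A₁ κ A B d d' h s t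
  have hs0 : (A₀.map φ).IsSymm := h0.map φ
  have hs1 : (A₁.map φ).IsSymm := h1.map φ
  have hN := N2_eq hk (m := 3) (by norm_num) (A₀.map φ) (A₁.map φ) hs0 hs1 (by
    intro s t hst hz
    refine ⟨A₁.map φ, ?_⟩
    rw [hdet, neg_eq_zero, mul_eq_zero, or_iff_right (pow_ne_zero 2 hκ)] at hz
    have h3 := sx_simple h2 hA hB hAB' hd hd' hκ hst hz
    rw [← hpol] at h3
    have e : (Polynomial.C s • A₀.map ((Polynomial.C).comp φ) +
        (Polynomial.C t + Polynomial.X) • A₁.map ((Polynomial.C).comp φ)) =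
        (s • A₀.map φ + t • A₁.map φ).map Polynomial.C +
          (Polynomial.X : Polynomial k) • (A₁.map φ).map Polynomial.C := by
      ext1 i j
      simp only [Matrix.add_apply, Matrix.smul_apply, Matrix.map_apply, smul_eq_mul,
        RingHom.comp_apply, map_add, map_mul]
      ring
    rw [e] at h3
    exact h3)
  have h5 : ∀ v : k × k, quadraticChar k ((-1) ^ 3 * (v.1 • A₀.map φ + v.2 • A₁.map φ).det) =
      quadraticChar k (sx (φ A) (φ B) (φ d) (φ d') v.1 v.2) := by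
    intro v
    rw [hdet]
    have e : (-1 : k) ^ 3 * -(φ κ ^ 2 * sx (φ A) (φ B) (φ d) (φ d') v.1 v.2) =
        φ κ ^ 2 * sx (φ A) (φ B) (φ d) (φ d') v.1 v.2 := by ring
    rw [e, qc_sq hκ]
  simp_rw [h5] at hN
  rw [sum_sx hk hA hB hd hd'] at hN
  have h6 : N2 (A₀.map φ) (A₁.map φ) = (pts A₀ A₁ φ).ncard + 1 := by
    unfold N2
    have h7 : ({x : Fin 6 → k | x ⬝ᵥ A₀.map φ *ᵥ x = 0 ∧ x ⬝ᵥ A₁.map φ *ᵥ x = 0}) =
        insert 0 (pts A₀ A₁ φ) := by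
      ext x
      simp only [pts, Set.mem_ofPred_eq, Set.mem_insert_iff]
      by_cases hx : x = 0
      · subst hx
        simp
      · simp [hx]
    have h8 : Nat.card {x : Fin 6 → k // x ⬝ᵥ A₀.map φ *ᵥ x = 0 ∧ x ⬝ᵥ A₁.map φ *ᵥ x = 0} =
        ({x : Fin 6 → k | x ⬝ᵥ A₀.map φ *ᵥ x = 0 ∧ x ⬝ᵥ A₁.map φ *ᵥ x = 0}).ncard := by
      rw [← Nat.card_coe_set_eq]
      rfl
    refine h8.trans ?_
    rw [h7, Set.ncard_insert_of_notMem _ (Set.toFinite _)]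
    exact fun h9 => h9.1 rfl
  have h9 : ((pts A₀ A₁ φ).ncard : ℤ) = (N2 (A₀.map φ) (A₁.map φ) : ℤ) - 1 := by
    rw [h6]
    push_cast
    ring
  rw [h9]
  have h10 : (N2 (n := 6) (A₀.map φ) (A₁.map φ) : ℤ) = _ := hN
  rw [h10, show 2 * 3 - 2 = 4 from rfl, show 3 - 2 = 1 from rfl]
  ring

end pts

section glob
variable {F : Type} [Field F] [NumberField F]

/-- the eigenvalues of the Frobenius of the place `v` on `H³` of the intersection of two quadrics -/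
def IsFrob (A₀ A₁ : Matrix (Fin 6) (Fin 6) (𝓞 F)) (v : HeightOneSpectrum (𝓞 F))
    (S : Multiset ℂ) : Prop :=
  ∀ (k : Type) [Field k] [Finite k] (φ : 𝓞 F →+* k) (r : ℕ), RingHom.ker φ = v.asIdeal →
    Nat.card k = Ideal.absNorm v.asIdeal ^ r →
    ((pts A₀ A₁ φ).ncard : ℂ) = ((Nat.card k : ℂ) - 1) * (1 + (Nat.card k : ℂ) +
      (Nat.card k : ℂ) ^ 2 + (Nat.card k : ℂ) ^ 3 - (S.map (fun α => α ^ r)).sum)

/-- `L` is the `L`-function of `H³` without the factors at the places dividing `B` -/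
def IsLF (A₀ A₁ : Matrix (Fin 6) (Fin 6) (𝓞 F)) (B : 𝓞 F) (L : ℂ → ℂ) : Prop :=
  Differentiable ℂ L ∧ ∃ S : HeightOneSpectrum (𝓞 F) → Multiset ℂ,
    (∀ v, B ∉ v.asIdeal → IsFrob A₀ A₁ v (S v) ∧ (S v).card = 4 ∧
      ∀ α ∈ S v, ‖α‖ ^ 2 = (Ideal.absNorm v.asIdeal : ℝ) ^ 3) ∧
    ∀ s : ℂ, 5 / 2 < s.re → HasProd (fun v : {v : HeightOneSpectrum (𝓞 F) // B ∉ v.asIdeal} =>
      ((S v.1).map (fun α => (1 - α * (Ideal.absNorm v.1.asIdeal : ℂ) ^ (-s))⁻¹)).prod) (L s)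

/-- the sum for the twist by `d` is the one for `y² = x³ + a x + b` -/
def Rel (A B d a b : 𝓞 F) (v : HeightOneSpectrum (𝓞 F)) : Prop :=
  ∀ (k : Type) [Field k] [Fintype k] [DecidableEq k] (φ : 𝓞 F →+* k), RingHom.ker φ = v.asIdeal →
    ringChar k ≠ 2 → ∑ x : k, quadraticChar k (φ d * (x * (x ^ 2 + φ A * x + φ B))) =
      ∑ x : k, quadraticChar k (x ^ 3 + φ a * x + φ b)

lemma rel_sum {A B d a b : 𝓞 F} {v : HeightOneSpectrum (𝓞 F)} (h : Rel A B d a b v)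
    (h2 : (2 : 𝓞 F) ∉ v.asIdeal) (hD : 4 * a ^ 3 + 27 * b ^ 2 ∉ v.asIdeal)
    {α β : ℂ} (hs : α + β = (ap a b v : ℤ)) (hp : α * β = (Ideal.absNorm v.asIdeal : ℕ))
    (k : Type) [Field k] [Fintype k] [DecidableEq k] (φ : 𝓞 F →+* k) (hφ : RingHom.ker φ = v.asIdeal)
    (hk : ringChar k ≠ 2) {r : ℕ} (hr : Fintype.card k = Ideal.absNorm v.asIdeal ^ r) :
    ((∑ x : k, quadraticChar k (φ d * (x * (x ^ 2 + φ A * x + φ B))) : ℤ) : ℂ) =
      -(α ^ r + β ^ r) := by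
  classical
  rw [h k φ hφ hk]
  have hmax : v.asIdeal.IsMaximal := v.isPrime.isMaximal v.ne_bot
  letI : Field (𝓞 F ⧸ v.asIdeal) := Ideal.Quotient.field v.asIdeal
  have : Finite (𝓞 F ⧸ v.asIdeal) := Ideal.finiteQuotientOfFreeOfNeBot v.asIdeal v.ne_bot
  letI : Fintype (𝓞 F ⧸ v.asIdeal) := Fintype.ofFinite _
  have hE : ringChar (𝓞 F ⧸ v.asIdeal) ≠ 2 := ringChar_ne h2
  let f : 𝓞 F ⧸ v.asIdeal →+* k := Ideal.Quotient.lift v.asIdeal φ (fun x hx => by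
    rw [← RingHom.mem_ker, hφ]
    exact hx)
  have hf : ∀ x, f (Ideal.Quotient.mk v.asIdeal x) = φ x := fun x => Ideal.Quotient.lift_mk _ _ _
  have h3 : (4 : 𝓞 F ⧸ v.asIdeal) * (Ideal.Quotient.mk v.asIdeal a) ^ 3 +
      27 * (Ideal.Quotient.mk v.asIdeal b) ^ 2 ≠ 0 := by
    intro h4
    apply hD
    rw [← Ideal.Quotient.eq_zero_iff_mem, map_add, map_mul, map_mul, map_pow, map_pow, map_ofNat,
      map_ofNat]
    exact h4
  have h4 := cnt_ext hE f (n := r) (by rw [hr, card_eq v]) (Ideal.Quotient.mk v.asIdeal a)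
    (Ideal.Quotient.mk v.asIdeal b) h3
  rw [hf, hf] at h4
  have h5 : ((Fintype.card (𝓞 F ⧸ v.asIdeal) : ℕ) : ℤ) - cnt (𝓞 F ⧸ v.asIdeal)
      (Ideal.Quotient.mk v.asIdeal a) (Ideal.Quotient.mk v.asIdeal b) = ap a b v := by
    rw [ap, card_eq v]
  rw [h5] at h4
  have h6 := luc_eq (a := ap a b v) (q := (Fintype.card (𝓞 F ⧸ v.asIdeal) : ℕ)) hs
    (by rw [hp, card_eq v]; norm_cast) r
  have h7 : ∑ x : k, quadraticChar k (x ^ 3 + φ a * x + φ b) =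
      -((Fintype.card k : ℤ) - cnt k (φ a) (φ b)) := by
    unfold cnt
    rw [card_points hk (fun x => x ^ 3 + φ a * x + φ b)]
    ring
  rw [h7, h4, ← h6]
  push_cast
  ring

/-- the Euler product -/
theorem isLF {A₀ A₁ : Matrix (Fin 6) (Fin 6) (𝓞 F)} (h0 : A₀.IsSymm) (h1 : A₁.IsSymm)
    {κ A B d d' a₁ b₁ a₂ b₂ c : 𝓞 F}
    (h : ∀ s t : 𝓞 F, (s • A₀ + t • A₁).det = -(κ ^ 2 * sx A B d d' s t))
    (hg : ∀ v : HeightOneSpectrum (𝓞 F), c ∉ v.asIdeal → (2 : 𝓞 F) ∉ v.asIdeal ∧ κ ∉ v.asIdeal ∧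
      A ∉ v.asIdeal ∧ B ∉ v.asIdeal ∧ A ^ 2 - 4 * B ∉ v.asIdeal ∧ d ∉ v.asIdeal ∧ d' ∉ v.asIdeal ∧
      4 * a₁ ^ 3 + 27 * b₁ ^ 2 ∉ v.asIdeal ∧ 4 * a₂ ^ 3 + 27 * b₂ ^ 2 ∉ v.asIdeal ∧
      Rel A B d a₁ b₁ v ∧ Rel A B d' a₂ b₂ v)
    (hL1 : HasL a₁ b₁ c) (hL2 : HasL a₂ b₂ c) :
    ∃ L : ℂ → ℂ, IsLF A₀ A₁ c L ∧ L 2 ≠ 0 := by
  classical
  obtain ⟨L1, d1, n1, p1⟩ := hL1
  obtain ⟨L2, d2, n2, p2⟩ := hL2
  have hroots : ∀ a b : 𝓞 F, ∀ v : HeightOneSpectrum (𝓞 F), c ∉ v.asIdeal → ∃ α β : ℂ,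
      α + β = (ap a b v : ℤ) ∧ α * β = (Ideal.absNorm v.asIdeal : ℕ) ∧
      ‖α‖ ^ 2 = (Ideal.absNorm v.asIdeal : ℕ) ∧ ‖β‖ ^ 2 = (Ideal.absNorm v.asIdeal : ℕ) :=
    fun a b v hv => roots _ _ (ap_bound v (hg v hv).1)
  have hr : ∀ a b : 𝓞 F, ∃ α β : HeightOneSpectrum (𝓞 F) → ℂ, ∀ v, c ∉ v.asIdeal →
      α v + β v = (ap a b v : ℤ) ∧ α v * β v = (Ideal.absNorm v.asIdeal : ℕ) ∧
      ‖α v‖ ^ 2 = (Ideal.absNorm v.asIdeal : ℕ) ∧ ‖β v‖ ^ 2 = (Ideal.absNorm v.asIdeal : ℕ) := by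
    intro a b
    have h2 : ∀ v : HeightOneSpectrum (𝓞 F), ∃ α β : ℂ, c ∉ v.asIdeal →
      α + β = (ap a b v : ℤ) ∧ α * β = (Ideal.absNorm v.asIdeal : ℕ) ∧
      ‖α‖ ^ 2 = (Ideal.absNorm v.asIdeal : ℕ) ∧ ‖β‖ ^ 2 = (Ideal.absNorm v.asIdeal : ℕ) := by
      intro v
      by_cases hv : c ∈ v.asIdeal
      · exact ⟨0, 0, fun h => absurd hv h⟩
      · obtain ⟨α, β, h3⟩ := hroots a b v hv
        exact ⟨α, β, fun _ => h3⟩
    choose α β h3 using h2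
    exact ⟨α, β, h3⟩
  obtain ⟨α₁, β₁, e1⟩ := hr a₁ b₁
  obtain ⟨α₂, β₂, e2⟩ := hr a₂ b₂
  let N : HeightOneSpectrum (𝓞 F) → ℂ := fun v => ((Ideal.absNorm v.asIdeal : ℕ) : ℂ)
  let S : HeightOneSpectrum (𝓞 F) → Multiset ℂ := fun v =>
    {N v * α₁ v, N v * β₁ v, N v * α₂ v, N v * β₂ v}
  refine ⟨fun s => L1 (s - 1) * L2 (s - 1), ⟨?_, S, fun v hv => ⟨?_, ?_, ?_⟩, fun s hs => ?_⟩, ?_⟩
  · exact (d1.comp (differentiable_id.sub_const 1)).mul (d2.comp (differentiable_id.sub_const 1))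
  · -- the Frobenius
    intro k _ _ φ r hφ hcard
    letI : Fintype k := Fintype.ofFinite k
    obtain ⟨g1, g2, g3, g4, g5, g6, g7, g8, g9, g10, g11⟩ := hg v hv
    have hne : ∀ x : 𝓞 F, x ∉ v.asIdeal → φ x ≠ 0 := by
      intro x hx h3
      apply hx
      rw [← hφ]
      exact h3
    have hk : ringChar k ≠ 2 := by
      intro h3
      apply hne 2 g1
      have h4 : ((2 : ℕ) : k) = 0 := by
        rw [← h3]
        exact ringChar.Nat.cast_ringChar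
      rw [map_ofNat]
      exact_mod_cast h4
    have h3 := pts_count hk φ A₀ A₁ h0 h1 h (hne _ g2) (hne _ g3) (hne _ g4) (hne _ g5) (hne _ g6)
      (hne _ g7)
    rw [Nat.card_eq_fintype_card] at hcard ⊢
    have s1 := rel_sum g10 g1 g8 (e1 v hv).1 (e1 v hv).2.1 k φ hφ hk hcard
    have s2 := rel_sum g11 g1 g9 (e2 v hv).1 (e2 v hv).2.1 k φ hφ hk hcard
    have h4 := congrArg (fun z : ℤ => (z : ℂ)) h3
    push_cast at h4 s1 s2
    rw [h4, s1, s2]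
    have h5 : ((S v).map (fun α => α ^ r)).sum = (N v * α₁ v) ^ r + ((N v * β₁ v) ^ r +
        ((N v * α₂ v) ^ r + (N v * β₂ v) ^ r)) := by
      simp [S]
    have h6 : (Fintype.card k : ℂ) = N v ^ r := by
      rw [hcard]
      push_cast
      rfl
    rw [h5, h6]
    simp only [mul_pow]
    ring
  · simp [S]
  · have hN : ‖N v‖ ^ 2 = (Ideal.absNorm v.asIdeal : ℝ) ^ 2 := by
      simp [N]
    intro α hα
    simp only [S, Multiset.insert_eq_cons, Multiset.mem_cons, Multiset.mem_singleton] at hα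
    obtain ⟨-, -, k1, k2⟩ := e1 v hv
    obtain ⟨-, -, k3, k4⟩ := e2 v hv
    rcases hα with rfl | rfl | rfl | rfl
    · rw [norm_mul, mul_pow, hN, k1]; ring
    · rw [norm_mul, mul_pow, hN, k2]; ring
    · rw [norm_mul, mul_pow, hN, k3]; ring
    · rw [norm_mul, mul_pow, hN, k4]; ring
  · have hs' : 3 / 2 < (s - 1).re := by
      rw [Complex.sub_re, Complex.one_re]
      linarith
    refine ((p1 (s - 1) hs').mul (p2 (s - 1) hs')).congr_fun fun v => ?_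
    have hn0 : (Ideal.absNorm v.1.asIdeal) ≠ 0 := Pool.Agent.H921R2.TatePole.nm_ne_zero v.1
    have hN0 : N v.1 ≠ 0 := by
      simp only [N]
      exact_mod_cast hn0
    have k1 : N v.1 ^ (-(s - 1)) = N v.1 * N v.1 ^ (-s) := by
      rw [show -(s - 1) = 1 + -s by ring, Complex.cpow_add _ _ hN0, Complex.cpow_one]
    have k2 : N v.1 ^ (1 - 2 * (s - 1)) = N v.1 * (N v.1 * N v.1 ^ (-s)) ^ 2 := by
      have h3 := Pool.Agent.Helper93.Bq.cpow_one_sub (Ideal.absNorm v.1.asIdeal) hn0 (s - 1)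
      rw [h3]
      simp only [N] at k1 ⊢
      rw [k1]
    have key : ∀ a b : 𝓞 F, ∀ α β : ℂ, α + β = (ap a b v.1 : ℤ) →
        α * β = (Ideal.absNorm v.1.asIdeal : ℕ) → ef a b (s - 1) v.1 =
          (1 - N v.1 * α * N v.1 ^ (-s))⁻¹ * (1 - N v.1 * β * N v.1 ^ (-s))⁻¹ := by
      intro a b α β hs hp
      rw [ef, ← mul_inv]
      congr 1
      have k1' : ((Ideal.absNorm v.1.asIdeal : ℕ) : ℂ) ^ (-(s - 1)) = N v.1 * N v.1 ^ (-s) := k1
      have k2' : ((Ideal.absNorm v.1.asIdeal : ℕ) : ℂ) ^ (1 - 2 * (s - 1)) =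
        N v.1 * (N v.1 * N v.1 ^ (-s)) ^ 2 := k2
      rw [k1', k2', ← hs]
      have hp' : α * β = N v.1 := hp
      linear_combination -(N v.1) ^ 2 * (N v.1 ^ (-s)) ^ 2 * hp'
    have h4 : ((S v.1).map (fun α => (1 - α * N v.1 ^ (-s))⁻¹)).prod =
        (1 - N v.1 * α₁ v.1 * N v.1 ^ (-s))⁻¹ * ((1 - N v.1 * β₁ v.1 * N v.1 ^ (-s))⁻¹ *
        ((1 - N v.1 * α₂ v.1 * N v.1 ^ (-s))⁻¹ * (1 - N v.1 * β₂ v.1 * N v.1 ^ (-s))⁻¹)) := by
      simp [S]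
    show ((S v.1).map (fun α => (1 - α * N v.1 ^ (-s))⁻¹)).prod = _
    rw [h4, key a₁ b₁ _ _ (e1 v.1 v.2).1 (e1 v.1 v.2).2.1,
      key a₂ b₂ _ _ (e2 v.1 v.2).1 (e2 v.1 v.2).2.1]
    ring
  · norm_num
    exact ⟨n1, n2⟩

end glob

end Pool.Agent.Helper93.Tq
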