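import Mathlib
import Pool.Agent.Helper93.Tq.Loc

/-!
# Removing Euler factors; the twists of `y² = x³ - x`
-/

set_option autoImplicit false
set_option linter.unusedSectionVars false
set_option linter.style.haveILetI false

open Finset Matrix NumberField IsDedekindDomain

namespace Pool.Agent.Helper93.Tq

open Pool.Agent.H82R3.EK (card_points)
open Pool.Agent.Helper93.Bq (cnt ap ef HasL Good card_eq ringChar_ne ap_bound finite_mem
  not_mem_of_dvd)
open Pool.Agent.H921R2.TatePole (nm two_le_nm)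

section
variable {K : Type} [Field K] [NumberField K]

lemma ef_den_ne {a b : 𝓞 K} (v : HeightOneSpectrum (𝓞 K)) (h2 : (2 : 𝓞 K) ∉ v.asIdeal) (s : ℂ)
    (hs : 1 / 2 < s.re) : (1 - ((ap a b v : ℤ) : ℂ) * ((Ideal.absNorm v.asIdeal : ℕ) : ℂ) ^ (-s)
    + ((Ideal.absNorm v.asIdeal : ℕ) : ℂ) ^ (1 - 2 * s)) ≠ 0 := by
  obtain ⟨α, β, h3, h4, h5, h6⟩ := roots _ _ (ap_bound (a := a) (b := b) v h2)
  have hn0 : (Ideal.absNorm v.asIdeal) ≠ 0 := Pool.Agent.H921R2.TatePole.nm_ne_zero v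
  have hn1 : 1 < Ideal.absNorm v.asIdeal := two_le_nm v
  have hn1' : (1 : ℝ) < (Ideal.absNorm v.asIdeal : ℕ) := by exact_mod_cast hn1
  have hn0' : (0 : ℝ) < (Ideal.absNorm v.asIdeal : ℕ) := by linarith
  rw [Pool.Agent.Helper93.Bq.cpow_one_sub _ hn0 s]
  set n := Ideal.absNorm v.asIdeal with hn
  set X : ℂ := (n : ℂ) ^ (-s) with hX
  have hXn : ‖X‖ = (n : ℝ) ^ (-s.re) := by
    rw [hX, Complex.norm_natCast_cpow_of_pos (by omega), Complex.neg_re]
  have key : ∀ z : ℂ, ‖z‖ ^ 2 = n → 1 - z * X ≠ 0 := by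
    intro z hz h7
    have h8 : z * X = 1 := by linear_combination -h7
    have h9 : ‖z‖ * ‖X‖ = 1 := by rw [← norm_mul, h8, norm_one]
    have h10 : (n : ℝ) * ((n : ℝ) ^ (-s.re)) ^ 2 = 1 := by
      rw [← hXn, ← hz, ← mul_pow, h9, one_pow]
    have h11 : (n : ℝ) ^ (1 + -s.re * 2) = 1 := by
      rw [Real.rpow_add hn0', Real.rpow_one, Real.rpow_mul hn0'.le, Real.rpow_two]
      exact h10
    have h12 : (n : ℝ) ^ (1 + -s.re * 2) < 1 :=
      Real.rpow_lt_one_of_one_lt_of_neg hn1' (by linarith)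
    linarith
  have h7 : 1 - ((ap a b v : ℤ) : ℂ) * X + n * X ^ 2 = (1 - α * X) * (1 - β * X) := by
    have h4' : α * β = (n : ℂ) := h4
    rw [← h3]
    linear_combination -X ^ 2 * h4'
  rw [h7]
  exact mul_ne_zero (key α h5) (key β h6)

/-- more places can be left out -/
theorem HasL.mono {a b B C : 𝓞 K} (h : HasL a b B) (hdvd : B ∣ C) (hC : C ≠ 0)
    (h2 : ∀ v : HeightOneSpectrum (𝓞 K), B ∉ v.asIdeal → (2 : 𝓞 K) ∉ v.asIdeal) : HasL a b C := by
  classical
  obtain ⟨L, d1, n1, p1⟩ := h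
  refine Pool.Agent.Helper93.Bq.HasL.remove hC
    (fun v s => if B ∈ v.asIdeal then 1 else ef a b s v)
    (fun v s => if B ∈ v.asIdeal then 1 else
      (1 - ((ap a b v : ℤ) : ℂ) * ((Ideal.absNorm v.asIdeal : ℕ) : ℂ) ^ (-s)
        + ((Ideal.absNorm v.asIdeal : ℕ) : ℂ) ^ (1 - 2 * s))) ?_ ?_ ?_ ?_ d1 n1 ?_
  · intro v
    by_cases hv : B ∈ v.asIdeal
    · simp only [if_pos hv]
      exact differentiable_const _
    · simp only [if_neg hv]
      have hN : ((Ideal.absNorm v.asIdeal : ℕ) : ℂ) ≠ 0 := by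
        have := Pool.Agent.H921R2.TatePole.nm_ne_zero v
        exact_mod_cast this
      have e1 : Differentiable ℂ (fun s : ℂ => ((Ideal.absNorm v.asIdeal : ℕ) : ℂ) ^ (-s)) := by
        intro s
        exact (differentiableAt_id.neg).const_cpow (Or.inl hN)
      have e2 : Differentiable ℂ (fun s : ℂ => ((Ideal.absNorm v.asIdeal : ℕ) : ℂ) ^ (1 - 2 * s)) := by
        intro s
        exact (((differentiable_const (1 : ℂ)).sub
          ((differentiable_const (2 : ℂ)).mul differentiable_id)) s).const_cpow (Or.inl hN)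
      exact (((differentiable_const _).sub ((differentiable_const _).mul e1))).add e2
  · intro v s hs
    by_cases hv : B ∈ v.asIdeal
    · rw [if_pos hv]
      exact one_ne_zero
    · rw [if_neg hv]
      exact ef_den_ne v (h2 v hv) s hs
  · intro v s
    by_cases hv : B ∈ v.asIdeal
    · rw [if_pos hv, if_pos hv, inv_one]
    · rw [if_neg hv, if_neg hv]
      rfl
  · intro v hv s
    rw [if_neg (not_mem_of_dvd hdvd hv)]
  · intro s hs
    have h3 := p1 s hs
    have h4 : (fun v : Good B => ef a b s v.1) =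
        (fun v : HeightOneSpectrum (𝓞 K) => if B ∈ v.asIdeal then 1 else ef a b s v) ∘
          (Subtype.val : Good B → HeightOneSpectrum (𝓞 K)) := by
      funext v
      rw [Function.comp_apply, if_neg v.2]
    rw [h4, Function.Injective.hasProd_iff Subtype.val_injective] at h3
    · exact h3
    · intro v hv
      have hvB : B ∈ v.asIdeal := by
        by_contra hcon
        exact hv ⟨⟨v, hcon⟩, rfl⟩
      rw [if_pos hvB]

/-- the twists of `y² = x³ - x` -/
lemma rel_gauss (d : 𝓞 K) (v : HeightOneSpectrum (𝓞 K)) (hd : d ∉ v.asIdeal) :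
    Rel 3 2 d (-d ^ 2) 0 v := by
  intro k _ _ _ φ hφ hk
  have hd0 : φ d ≠ 0 := by
    intro h3
    apply hd
    rw [← hφ]
    exact h3
  refine Fintype.sum_equiv ((Equiv.addRight (1 : k)).trans (Equiv.mulLeft₀ (φ d) hd0)) _ _
    fun x => ?_
  have e1 : ((Equiv.addRight (1 : k)).trans (Equiv.mulLeft₀ (φ d) hd0)) x = φ d * (x + 1) := rfl
  rw [e1, map_neg, map_pow, map_zero]
  have h3 : φ (3 : 𝓞 K) = 3 := map_ofNat φ 3
  have h2 : φ (2 : 𝓞 K) = 2 := map_ofNat φ 2
  rw [h3, h2]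
  have e2 : (φ d * (x + 1)) ^ 3 + -φ d ^ 2 * (φ d * (x + 1)) + 0 =
      (φ d) ^ 2 * (φ d * (x * (x ^ 2 + 3 * x + 2))) := by ring
  rw [e2, qc_sq hd0]

end

end Pool.Agent.Helper93.Tq
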