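import Mathlib
import Pool.Agent.Helper93.Tq.Mono
import Pool.Agent.Results.MP_6dc9d1_nt.GaussianMultiquadraticTowers

/-!
# Intersections of two quadrics in `P⁵` with intermediate Jacobian isogenous to `E_D × E_D`
-/

set_option autoImplicit false
set_option linter.unusedSectionVars false
set_option linter.style.haveILetI false

open Finset Matrix NumberField IsDedekindDomain

namespace Pool.Agent.Helper93.Tq

open Pool.Agent.Helper93.Bq (ap ef HasL)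
open Pool.Agent.Results.MP_6dc9d1_nt.GaussianMultiquadraticTowers (RankZero IsLFunction av_eq curve)

section
variable {F : Type} [Field F] [NumberField F]

lemma hasL_of {D B : 𝓞 F} (h : RankZero D B) : HasL (-D ^ 2) 0 B := by
  obtain ⟨-, L, ⟨h1, h2⟩, h3⟩ := h
  refine ⟨L, h1, h3, fun s hs => (h2 s hs).congr_fun fun v => ?_⟩
  unfold ef
  rw [av_eq]

/-- the threefold -/
theorem three {D B c κ : 𝓞 F} (h : RankZero D B) {A₀ A₁ : Matrix (Fin 6) (Fin 6) (𝓞 F)}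
    (h0 : A₀.IsSymm) (h1 : A₁.IsSymm)
    (hdet : ∀ s t : 𝓞 F, (s • A₀ + t • A₁).det =
      κ ^ 2 * (3 * D * (s ^ 2 - t ^ 2) * (s ^ 2 + 2 * t ^ 2) * (2 * s ^ 2 + t ^ 2)))
    (hc0 : c ≠ 0) (hBc : B ∣ c) (h6 : 6 ∣ c) (hκ : κ ∣ c) (hD : D ∣ c) (hB2 : 2 ∣ B) :
    ∃ L : ℂ → ℂ, IsLF A₀ A₁ c L ∧ L 2 ≠ 0 := by
  classical
  have hmem : ∀ z : 𝓞 F, z ∣ c → ∀ v : HeightOneSpectrum (𝓞 F), c ∉ v.asIdeal → z ∉ v.asIdeal :=
    fun z hz v hv => Pool.Agent.Helper93.Bq.not_mem_of_dvd hz hv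
  have h2c : (2 : 𝓞 F) ∣ c := (Dvd.intro 3 (by norm_num)).trans h6
  have h3c : (3 : 𝓞 F) ∣ c := (Dvd.intro 2 (by norm_num)).trans h6
  have hL : HasL (-D ^ 2) 0 c := HasL.mono (hasL_of h) hBc hc0 fun v hv =>
    Pool.Agent.Helper93.Bq.not_mem_of_dvd hB2 hv
  have hL' : HasL (-(-D) ^ 2) 0 c := by
    rw [neg_sq]
    exact hL
  obtain ⟨L, ⟨d1, S, e1, e2⟩, e3⟩ := isLF (A₀ := D • A₁) (A₁ := A₀) (h1.smul D) h0 (κ := κ) (A := 3)
    (B := 2) (d := D) (d' := -D) (c := c) (by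
      intro s t
      have e : (s • D • A₁ + t • A₀) = (t • A₀ + (s * D) • A₁) := by
        rw [smul_smul, add_comm]
      rw [e, hdet, sx]
      ring) (by
      intro v hv
      have k2 := hmem 2 h2c v hv
      have k3 := hmem 3 h3c v hv
      have kD := hmem D hD v hv
      have k1 : (1 : 𝓞 F) ∉ v.asIdeal := fun h => v.isPrime.ne_top ((Ideal.eq_top_iff_one _).2 h)
      have kdisc : ∀ d : 𝓞 F, d ∉ v.asIdeal → 4 * (-d ^ 2) ^ 3 + 27 * 0 ^ 2 ∉ v.asIdeal := by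
        intro d hd
        have e : 4 * (-d ^ 2) ^ 3 + 27 * 0 ^ 2 = -(2 ^ 2 * d ^ 6) := by ring
        rw [e, neg_mem_iff]
        intro h4
        rcases v.isPrime.mem_or_mem h4 with h5 | h5
        · exact k2 (v.isPrime.mem_of_pow_mem _ h5)
        · exact hd (v.isPrime.mem_of_pow_mem _ h5)
      have kD' : -D ∉ v.asIdeal := by rwa [neg_mem_iff]
      refine ⟨k2, hmem κ hκ v hv, k3, k2, ?_, kD, kD', kdisc D kD, kdisc (-D) kD',
        rel_gauss D v kD, rel_gauss (-D) v kD'⟩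
      norm_num
      exact k1) hL hL'
  refine ⟨L, ⟨d1, S, fun v hv => ⟨?_, (e1 v hv).2⟩, e2⟩, e3⟩
  intro k _ _ φ r hφ hcard
  have h4 := (e1 v hv).1 k φ r hφ hcard
  have h5 : pts (D • A₁) A₀ φ = pts A₀ A₁ φ := by
    have hφD : φ D ≠ 0 := by
      intro h6
      apply hmem D hD v hv
      rw [← hφ]
      exact h6
    have e : (D • A₁).map φ = φ D • A₁.map φ := by
      ext i j
      simp
    ext x
    simp only [pts, Set.mem_ofPred_eq, e, Matrix.smul_mulVec, dotProduct_smul, smul_eq_mul,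
      mul_eq_zero, or_iff_right hφD]
    tauto
  rw [h5] at h4
  exact h4

end

/-- the example of a pencil -/
lemma pencil_ex {R : Type} [CommRing R] (D : R) :
    ∃ A₀ A₁ : Matrix (Fin 6) (Fin 6) R, A₀.IsSymm ∧ A₁.IsSymm ∧ ∀ s t : R,
      (s • A₀ + t • A₁).det =
      1 ^ 2 * (3 * D * (s ^ 2 - t ^ 2) * (s ^ 2 + 2 * t ^ 2) * (2 * s ^ 2 + t ^ 2)) := by
  refine ⟨!![2, 0, 0, 0, 0, 0; 0, -1, 0, 0, 0, 0; 0, 0, 1, 0, 0, 0; 0, 0, 0, 3 * D, 0, 0;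
      0, 0, 0, 0, 0, 1; 0, 0, 0, 0, 1, 0],
    !![0, 1, 0, 0, 0, 0; 1, 0, 0, 0, 0, 0; 0, 0, -1, 0, 0, 0; 0, 0, 0, 3 * D, 0, 0;
      0, 0, 0, 0, 2, 0; 0, 0, 0, 0, 0, -1], ?_, ?_, ?_⟩
  · ext i j
    fin_cases i <;> fin_cases j <;> rfl
  · ext i j
    fin_cases i <;> fin_cases j <;> rfl
  · intro s t
    simp [Matrix.det_succ_row_zero, Fin.sum_univ_succ, Fin.succAbove]
    ring

end Pool.Agent.Helper93.Tq
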